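import Pool.Agent.helper62.VD.SpecE

/-! # Row vde:EDJ (MP_07c750_an): the measure of a disjoint union -/

set_option autoImplicit false

open MeasureTheory Filter Set Topology
open scoped ENNReal

namespace Pool.Agent.VDE

theorem EDJ_proof (h1 : ERD_stmt) : EDJ_stmt := by
  intro Γ S _ _ _ _ _ μ F0 K d f hb
  obtain ⟨n0, hn0, hfc⟩ := hb.fc
  refine ⟨n0, hn0, ?_⟩
  intro ι _ Z V hZ hd hdis hV hVi hZV
  have hcnt : Countable Γ := hb.cnt
  have hE := (h1 Γ S μ F0 K d f hb).2.2.2.2.2.1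
  have hA : ∀ (i : ι) (γ : Γ), MeasurableSet {x : S | γ • x ∈ Z i} :=
    fun i γ => (hb.act γ).measurable (hZ i)
  have e1 : ∀ i, μ (Z i) = ∑' γ : Γ, ∫⁻ x in F0, ({y : S | γ • y ∈ Z i}).indicator (1 : S → ℝ≥0∞) x ∂μ := by
    intro i
    rw [← hE (Z i) (hZ i)]
    refine tsum_congr (fun γ => ?_)
    rw [lintegral_indicator_one (hA i γ), Measure.restrict_apply (hA i γ), inter_comm]
  have hpt : ∀ x : S, ∑' p : ι × Γ, ({y : S | p.2 • y ∈ Z p.1}).indicator (1 : S → ℝ≥0∞) x ≤
      V.indicator (fun _ => (n0 : ℝ≥0∞)) x := by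
    intro x
    classical
    by_cases hx : ∃ p : ι × Γ, p.2 • x ∈ Z p.1
    · obtain ⟨⟨i0, g0⟩, hp0⟩ := hx
      have hp0' : g0 • x ∈ Z i0 := hp0
      have hxV : x ∈ V := (hVi g0 x).1 (hZV i0 hp0')
      rw [indicator_of_mem hxV]
      obtain ⟨hTf, hTc⟩ := hfc (g0 • x)
      let Fs : Finset (ι × Γ) := hTf.toFinset.image (fun g => (i0, g * g0))
      have h0 : ∀ p ∉ Fs, ({y : S | p.2 • y ∈ Z p.1}).indicator (1 : S → ℝ≥0∞) x = 0 := by
        rintro ⟨j, g⟩ hp
        apply indicator_of_notMem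
        intro hm
        apply hp
        have hm' : g • x ∈ Z j := hm
        have hgg : (g * g0⁻¹) • g0 • x = g • x := by
          rw [smul_smul, inv_mul_cancel_right]
        have hij : j = i0 := by
          by_contra hne
          apply hdis i0 j (Ne.symm hne) (g * g0⁻¹) (g0 • x) hp0'
          rw [hgg]
          exact hm'
        subst hij
        refine Finset.mem_image.2 ⟨g * g0⁻¹, ?_, ?_⟩
        · rw [Set.Finite.mem_toFinset]
          show d ((g * g0⁻¹) • g0 • x) (g0 • x) ≤ 1 / 2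
          rw [hgg]
          exact hd _ _ hm' _ hp0'
        · rw [inv_mul_cancel_right]
      rw [tsum_eq_sum h0]
      calc ∑ p ∈ Fs, ({y : S | p.2 • y ∈ Z p.1}).indicator (1 : S → ℝ≥0∞) x
          ≤ ∑ p ∈ Fs, (1 : ℝ≥0∞) := by
            refine Finset.sum_le_sum (fun p _ => ?_)
            by_cases hm : x ∈ {y : S | p.2 • y ∈ Z p.1}
            · rw [indicator_of_mem hm]
              exact le_refl _
            · rw [indicator_of_notMem hm]
              exact zero_le_one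
        _ = ((Fs.card : ℕ) : ℝ≥0∞) := by
            rw [Finset.sum_const, nsmul_eq_mul, mul_one]
        _ ≤ n0 := by
            have h2 : Fs.card ≤ n0 := by
              refine Finset.card_image_le.trans ?_
              rw [← Set.ncard_eq_toFinset_card _ hTf]
              exact hTc
            exact_mod_cast h2
    · have h3 : ∀ p : ι × Γ, ({y : S | p.2 • y ∈ Z p.1}).indicator (1 : S → ℝ≥0∞) x = 0 := by
        intro p
        apply indicator_of_notMem
        intro hm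
        exact hx ⟨p, hm⟩
      simp only [h3, tsum_zero]
      exact zero_le
  calc ∑' i, μ (Z i)
      = ∑' i, ∑' γ : Γ, ∫⁻ x in F0, ({y : S | γ • y ∈ Z i}).indicator (1 : S → ℝ≥0∞) x ∂μ :=
        tsum_congr e1
    _ = ∑' p : ι × Γ, ∫⁻ x in F0, ({y : S | p.2 • y ∈ Z p.1}).indicator (1 : S → ℝ≥0∞) x ∂μ :=
        (ENNReal.tsum_prod (f := fun (i : ι) (γ : Γ) =>
          ∫⁻ x in F0, ({y : S | γ • y ∈ Z i}).indicator (1 : S → ℝ≥0∞) x ∂μ)).symm
    _ = ∫⁻ x in F0, ∑' p : ι × Γ, ({y : S | p.2 • y ∈ Z p.1}).indicator (1 : S → ℝ≥0∞) x ∂μ :=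
        (lintegral_tsum (fun p : ι × Γ => (measurable_one.indicator (hA p.1 p.2)).aemeasurable)).symm
    _ ≤ ∫⁻ x in F0, V.indicator (fun _ => (n0 : ℝ≥0∞)) x ∂μ := lintegral_mono hpt
    _ = n0 * μ (F0 ∩ V) := by
        rw [lintegral_indicator_const hV, Measure.restrict_apply hV, inter_comm]

end Pool.Agent.VDE
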